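import Mathlib

set_option autoImplicit false

/-!
# Numerical lemmas
-/

namespace Pool.Agent.K4H28.TC

/-- The comparison of `u` with `t x`. -/
theorem sphere {s : ℕ} {x : Fin s → ℝ} {c : ℝ} {e : ℕ} {u : Fin s → ℕ} (hc : 0 < c) (he : 0 < e)
    (h : c * e < ∑ i, x i * (u i : ℝ)) : ∃ t : ℝ, 0 < t ∧ t * c = e ∧
      ∑ i, ((u i : ℝ) - t * x i) ^ 2 + t ^ 2 * (c ^ 2 - ∑ i, x i ^ 2) <
        ∑ i, (u i : ℝ) ^ 2 - (e : ℝ) ^ 2 := by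
  have heR : (0 : ℝ) < e := by exact_mod_cast he
  obtain ⟨t, ht⟩ : ∃ t : ℝ, t = e / c := ⟨_, rfl⟩
  have ht0 : 0 < t := by rw [ht]; positivity
  have htc : t * c = e := by rw [ht]; field_simp
  refine ⟨t, ht0, htc, ?_⟩
  have hsum : ∑ i, ((u i : ℝ) - t * x i) ^ 2 =
      ∑ i, (u i : ℝ) ^ 2 - 2 * t * ∑ i, x i * (u i : ℝ) + t ^ 2 * ∑ i, x i ^ 2 := by
    have e1 : ∀ i, ((u i : ℝ) - t * x i) ^ 2 =
        (u i : ℝ) ^ 2 - 2 * t * (x i * u i) + t ^ 2 * x i ^ 2 := fun i => by ring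
    simp only [e1]
    rw [Finset.sum_add_distrib, Finset.sum_sub_distrib, ← Finset.mul_sum, ← Finset.mul_sum]
  rw [hsum]
  have h1 : t * (c * e) < t * ∑ i, x i * (u i : ℝ) := mul_lt_mul_of_pos_left h ht0
  have e1 : t * (c * e) = (e : ℝ) ^ 2 := by rw [← mul_assoc, htc]; ring
  have e2 : t ^ 2 * c ^ 2 = (e : ℝ) ^ 2 := by rw [← mul_pow, htc]
  rw [e1] at h1
  linarith

/-- `G ^ 2 < 0` -/
theorem neg_of {s : ℕ} {x : Fin s → ℝ} {c : ℝ} {e : ℕ} {u : Fin s → ℕ} (hc : 0 ≤ c)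
    (hD : 0 ≤ c ^ 2 - ∑ i, x i ^ 2) (h : c * e < ∑ i, x i * (u i : ℝ)) :
    0 < c ∧ e ^ 2 < ∑ i, u i ^ 2 := by
  have hcs : (∑ i, x i * (u i : ℝ)) ^ 2 ≤ (∑ i, x i ^ 2) * ∑ i, (u i : ℝ) ^ 2 :=
    Finset.sum_mul_sq_le_sq_mul_sq _ _ _
  have hU0 : 0 ≤ ∑ i, (u i : ℝ) ^ 2 := Finset.sum_nonneg fun i _ => sq_nonneg _
  have h1 : (∑ i, x i ^ 2) * ∑ i, (u i : ℝ) ^ 2 ≤ c ^ 2 * ∑ i, (u i : ℝ) ^ 2 :=
    mul_le_mul_of_nonneg_right (by linarith) hU0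
  have hce : 0 ≤ c * e := mul_nonneg hc (Nat.cast_nonneg e)
  have h2 : (c * e) ^ 2 < (∑ i, x i * (u i : ℝ)) ^ 2 := pow_lt_pow_left₀ h hce two_ne_zero
  have h3 : c ^ 2 * (e : ℝ) ^ 2 < c ^ 2 * ∑ i, (u i : ℝ) ^ 2 := by
    have e1 : (c * e) ^ 2 = c ^ 2 * (e : ℝ) ^ 2 := by ring
    linarith
  constructor
  · rcases hc.eq_or_lt with h0 | h0
    · rw [← h0] at h3
      norm_num at h3
    · exact h0
  · have h4 : (e : ℝ) ^ 2 < ∑ i, (u i : ℝ) ^ 2 := lt_of_mul_lt_mul_left h3 (sq_nonneg c)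
    exact_mod_cast h4

/-- The bound for the degree. -/
theorem deg_num {m t σ2 k e : ℤ} (hm : 1 ≤ m) (ht : 1 ≤ t) (h : 2 * m * t ≤ σ2 - k)
    (he : e ≤ 3 * (m + t)) : 2 * e ≤ 6 + 3 * (σ2 - k) := by
  have h1 : 0 ≤ (m - 1) * (t - 1) := mul_nonneg (by linarith) (by linarith)
  nlinarith

/-- A quadratic polynomial. -/
theorem quad_nonneg {a b c w : ℝ} (ha : 0 < a) (h : b ^ 2 ≤ a * c) :
    0 ≤ a * w ^ 2 - 2 * b * w + c := by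
  have h1 : 0 ≤ a * (a * w ^ 2 - 2 * b * w + c) := by
    have e1 : a * (a * w ^ 2 - 2 * b * w + c) = (a * w - b) ^ 2 + (a * c - b ^ 2) := by ring
    rw [e1]
    have := sq_nonneg (a * w - b)
    linarith
  exact le_of_mul_le_mul_left (by simpa using h1) ha

/-- The last inequality. -/
theorem last {ρ z k E : ℝ} (hρ : 4 ≤ ρ) (hz : 0 ≤ z) (hk1 : 1 ≤ k) (hk : k ≤ ρ)
    (hk8 : 8 * k ≤ ρ ^ 2) (hE0 : 0 < E) (hE : 2 * E ≤ 6 + 3 * (ρ ^ 2 - k)) :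
    k * E ≤ (ρ - z) ^ 2 * E + 2 * z ^ 3 := by
  by_contra hcon
  push Not at hcon
  have hz3 : 0 ≤ z ^ 3 := by positivity
  have hlt : (ρ - z) ^ 2 < k := by
    by_contra h
    push Not at h
    have := mul_le_mul_of_nonneg_right h hE0.le
    linarith
  obtain ⟨w, hw⟩ : ∃ w, w = ρ - z := ⟨_, rfl⟩
  have hzw : z = ρ - w := by linarith
  rw [← hw] at hlt hcon
  obtain ⟨E1, hE1⟩ : ∃ E1, E1 = 3 + 3 / 2 * (ρ ^ 2 - k) := ⟨_, rfl⟩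
  have hE1' : E ≤ E1 := by linarith
  -- the inequality with `E1`
  have h1 : E1 * (w ^ 2 - k) + 2 * (ρ - w) ^ 3 < 0 := by
    have h2 : E1 * (w ^ 2 - k) ≤ E * (w ^ 2 - k) :=
      mul_le_mul_of_nonpos_right hE1' (by linarith)
    rw [hzw] at hcon
    linarith
  have hw36 : w ≤ 9 / 25 * ρ := by
    by_contra h
    push Not at h
    have h2 : (9 / 25 * ρ) ^ 2 < w ^ 2 := pow_lt_pow_left₀ h (by linarith) two_ne_zero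
    nlinarith
  have h3 : 0 ≤ w ^ 2 * (9 / 25 * ρ - w) := mul_nonneg (sq_nonneg w) (by linarith)
  have h4 : (ρ - w) ^ 3 = ρ ^ 3 - 3 * ρ ^ 2 * w + 66 / 25 * ρ * w ^ 2 +
      w ^ 2 * (9 / 25 * ρ - w) := by ring
  have h5 : (E1 + 132 / 25 * ρ) * w ^ 2 - 2 * (3 * ρ ^ 2) * w + (2 * ρ ^ 3 - k * E1) < 0 := by
    rw [h4] at h1
    linarith
  have hρ2 : 0 ≤ ρ ^ 2 - k := by nlinarith
  have hE10 : 0 < E1 := by rw [hE1]; linarith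
  refine absurd (quad_nonneg (a := E1 + 132 / 25 * ρ) (b := 3 * ρ ^ 2) (c := 2 * ρ ^ 3 - k * E1)
    (w := w) (by linarith) ?_) (not_le.2 h5)
  rcases le_or_gt 7 ρ with h7 | h7
  · -- `k ≤ ρ`
    have hkE : k * E1 ≤ ρ * (3 + 3 / 2 * (ρ ^ 2 - ρ)) := by
      rw [hE1]
      have e1 : ρ * (3 + 3 / 2 * (ρ ^ 2 - ρ)) - k * (3 + 3 / 2 * (ρ ^ 2 - k)) =
        (ρ - k) * (3 + 3 / 2 * (ρ ^ 2 - ρ - k)) := by ring
      have : 0 ≤ (ρ - k) * (3 + 3 / 2 * (ρ ^ 2 - ρ - k)) :=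
        mul_nonneg (by linarith) (by nlinarith)
      linarith
    have ha : 3 + 3 / 2 * (ρ ^ 2 - ρ) + 132 / 25 * ρ ≤ E1 + 132 / 25 * ρ := by
      rw [hE1]
      linarith
    have hc0 : 0 ≤ 2 * ρ ^ 3 - ρ * (3 + 3 / 2 * (ρ ^ 2 - ρ)) := by
      obtain ⟨v, rfl⟩ : ∃ v, ρ = 7 + v := ⟨ρ - 7, by ring⟩
      have hv : 0 ≤ v := by linarith
      ring_nf
      positivity
    have h8 : (3 + 3 / 2 * (ρ ^ 2 - ρ) + 132 / 25 * ρ) * (2 * ρ ^ 3 - ρ * (3 + 3 / 2 * (ρ ^ 2 - ρ))) ≤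
        (E1 + 132 / 25 * ρ) * (2 * ρ ^ 3 - k * E1) := by
      refine mul_le_mul ha (by linarith) hc0 (by linarith)
    refine le_trans ?_ h8
    have h9 : 0 ≤ (3 + 3 / 2 * (ρ ^ 2 - ρ) + 132 / 25 * ρ) *
        (2 * ρ ^ 3 - ρ * (3 + 3 / 2 * (ρ ^ 2 - ρ))) - (3 * ρ ^ 2) ^ 2 := by
      obtain ⟨v, rfl⟩ : ∃ v, ρ = 7 + v := ⟨ρ - 7, by ring⟩
      have hv : 0 ≤ v := by linarith
      ring_nf
      positivity
    linarith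
  · -- `k ≤ ρ ^ 2 / 8`
    have hkE : k * E1 ≤ ρ ^ 2 / 8 * (3 + 3 / 2 * (7 / 8 * ρ ^ 2)) := by
      rw [hE1]
      have e1 : ρ ^ 2 / 8 * (3 + 3 / 2 * (7 / 8 * ρ ^ 2)) - k * (3 + 3 / 2 * (ρ ^ 2 - k)) =
        (ρ ^ 2 / 8 - k) * (3 + 3 / 2 * (7 / 8 * ρ ^ 2 - k)) := by ring
      have : 0 ≤ (ρ ^ 2 / 8 - k) * (3 + 3 / 2 * (7 / 8 * ρ ^ 2 - k)) :=
        mul_nonneg (by linarith) (by linarith)
      linarith
    have ha : 3 + 3 / 2 * (7 / 8 * ρ ^ 2) + 132 / 25 * ρ ≤ E1 + 132 / 25 * ρ := by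
      rw [hE1]
      linarith
    -- `c0 = 2 ρ ^ 3 - …`
    have h41 : 0 ≤ (ρ - 4) * (7 - ρ) := mul_nonneg (by linarith) (by linarith)
    have hc0 : 0 ≤ 2 * ρ ^ 3 - ρ ^ 2 / 8 * (3 + 3 / 2 * (7 / 8 * ρ ^ 2)) := by
      have e1 : 2 * ρ ^ 3 - ρ ^ 2 / 8 * (3 + 3 / 2 * (7 / 8 * ρ ^ 2)) =
        ρ ^ 2 * (2 * ρ - 3 / 8 - 21 / 128 * ρ ^ 2) := by ring
      rw [e1]
      refine mul_nonneg (sq_nonneg _) ?_
      nlinarith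
    have h8 : (3 + 3 / 2 * (7 / 8 * ρ ^ 2) + 132 / 25 * ρ) *
        (2 * ρ ^ 3 - ρ ^ 2 / 8 * (3 + 3 / 2 * (7 / 8 * ρ ^ 2))) ≤
        (E1 + 132 / 25 * ρ) * (2 * ρ ^ 3 - k * E1) := by
      refine mul_le_mul ha (by linarith) hc0 (by linarith)
    refine le_trans ?_ h8
    have e2 : (3 + 3 / 2 * (7 / 8 * ρ ^ 2) + 132 / 25 * ρ) *
        (2 * ρ ^ 3 - ρ ^ 2 / 8 * (3 + 3 / 2 * (7 / 8 * ρ ^ 2))) - (3 * ρ ^ 2) ^ 2 =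
        ρ ^ 2 * ((3 + 21 / 16 * ρ ^ 2 + 132 / 25 * ρ) * (2 * ρ - 3 / 8 - 21 / 128 * ρ ^ 2) -
          9 * ρ ^ 2) := by ring
    have h9 : 0 ≤ (3 + 21 / 16 * ρ ^ 2 + 132 / 25 * ρ) * (2 * ρ - 3 / 8 - 21 / 128 * ρ ^ 2) -
          9 * ρ ^ 2 := by
      nlinarith [mul_nonneg h41 (sq_nonneg ρ), mul_nonneg h41 (by linarith : (0:ℝ) ≤ ρ)]
    have h10 := mul_nonneg (sq_nonneg ρ) h9
    linarith

/-- The last inequality, with the largest coefficient. -/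
theorem last2 {u ρ W k E : ℝ} (hu : 4 ≤ u) (hρ : u ≤ ρ) (hW0 : 0 ≤ W) (hW : W ^ 2 ≤ k)
    (hk1 : 1 ≤ k) (hk : k ≤ u) (hk8 : 8 * k ≤ u ^ 2) (hE : 2 * E ≤ 6 + 3 * (ρ ^ 2 - k)) :
    k * E ≤ W ^ 2 * E + 2 * (u - W) * (ρ - W) ^ 2 := by
  have hWu : W ≤ u := by
    refine le_of_sq_le_sq ?_ (by linarith)
    nlinarith
  obtain ⟨δ, hδ⟩ : ∃ δ, δ = ρ - u := ⟨_, rfl⟩
  have hρ' : ρ = u + δ := by linarith
  have hδ0 : 0 ≤ δ := by linarith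
  have h1 : (k - W ^ 2) * E ≤ (k - W ^ 2) * (3 + 3 / 2 * (ρ ^ 2 - k)) :=
    mul_le_mul_of_nonneg_left (by linarith) (by linarith)
  -- the coefficients
  have c2 : 0 ≤ 2 * (u - W) - 3 / 2 * (k - W ^ 2) := by
    have := sq_nonneg (3 * W - 2)
    nlinarith
  have c1 : 0 ≤ 4 * (u - W) ^ 2 - 3 * u * (k - W ^ 2) := by
    have h2 := quad_nonneg (a := 4 + 3 * u) (b := 4 * u) (c := u ^ 2) (w := W) (by linarith)
      (by nlinarith [sq_nonneg u])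
    have h3 : 3 * u * k ≤ 3 * u * u := mul_le_mul_of_nonneg_left hk (by linarith)
    nlinarith
  have c0 : 0 ≤ 2 * (u - W) ^ 3 - (k - W ^ 2) * (3 + 3 / 2 * (u ^ 2 - k)) := by
    have h2 := last (ρ := u) (z := u - W) (k := k) (E := 3 + 3 / 2 * (u ^ 2 - k)) hu (by linarith)
      hk1 hk hk8 (by nlinarith) (by linarith)
    have e1 : u - (u - W) = W := by ring
    rw [e1] at h2
    linarith
  have h2 := mul_nonneg c2 (sq_nonneg δ)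
  have h3 := mul_nonneg c1 hδ0
  have e2 : 2 * (u - W) * (ρ - W) ^ 2 - (k - W ^ 2) * (3 + 3 / 2 * (ρ ^ 2 - k)) =
      (2 * (u - W) - 3 / 2 * (k - W ^ 2)) * δ ^ 2 +
      (4 * (u - W) ^ 2 - 3 * u * (k - W ^ 2)) * δ +
      (2 * (u - W) ^ 3 - (k - W ^ 2) * (3 + 3 / 2 * (u ^ 2 - k))) := by
    rw [hρ']
    ring
  linarith

end Pool.Agent.K4H28.TC
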