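import Pool.Agent.K4H28.TC.Facts
import Pool.Agent.K4H28.TC.Num

set_option autoImplicit false

/-!
# The degree of a standard negative curve
-/

namespace Pool.Agent.K4H28.TC

open MvPolynomial Pool.Agent.W609 Pool.Agent.W609.CR Pool.Agent.TH167 Pool.Agent.TH167.SH
open Pool.Agent.R355.NegOrb Pool.Agent.R355.CanDeg

theorem ip_neg {s e : ℕ} {u : Fin s → ℕ} (h : e ^ 2 < ∑ i, u i ^ 2) :
    ∃ k : ℤ, 0 < k ∧ ip e u e u = -k ∧ (k : ℝ) = ∑ i, (u i : ℝ) ^ 2 - (e : ℝ) ^ 2 := by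
  refine ⟨((∑ i, u i ^ 2 : ℕ) : ℤ) - ((e ^ 2 : ℕ) : ℤ), ?_, ?_, ?_⟩
  · have : ((e ^ 2 : ℕ) : ℤ) < ((∑ i, u i ^ 2 : ℕ) : ℤ) := by exact_mod_cast h
    linarith
  · unfold ip
    push_cast
    have h2 : ∑ j, (u j : ℤ) * u j = ∑ j, (u j : ℤ) ^ 2 :=
      Finset.sum_congr rfl fun j _ => by ring
    rw [h2]
    ring
  · push_cast
    rfl

theorem Irr.pos {s : ℕ} {P : Fin s → Fin 2 → ℂ} {e : ℕ} {u : Fin s → ℕ} (h : Irr P e u) :
    0 < e := by
  obtain ⟨G, g1, g2, -⟩ := h.ex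
  exact deg_pos g1 g2

/-- The bound for the degree of a standard negative curve. -/
theorem deg_std {r : ℕ} {P : Fin (r + 4) → Fin 2 → ℂ}
    (hP : AlgebraicIndependent ℚ (fun ij : Fin (r + 4) × Fin 2 => P ij.1 ij.2))
    {e : ℕ} {u : Fin (r + 4) → ℕ} (hI : Irr P e u) (hred : Reduced e u) {k : ℤ}
    (hk : ip e u e u = -k) (hk0 : 0 < k) {T : Finset (Fin (r + 4))} (hT : T.card = 9) :
    2 * (e : ℤ) ≤ 6 + 3 * (∑ j ∈ Tᶜ, (u j : ℤ) ^ 2 - k) := by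
  classical
  obtain ⟨κ, hκ⟩ : ∃ κ, kk e u = -κ := ⟨-kk e u, (neg_neg _).symm⟩
  obtain ⟨hκ3, -⟩ := main hP hI hk hk0 hκ
  obtain ⟨j1, hj1T, hj1⟩ := exists_out hP hI (by rw [hk]; linarith) hT.le
  have hx1 := xuk hP hI hk (j := j1) (by omega)
  have hTs : ∑ i ∈ T, u i ≤ 3 * e := red_sum hred 3 T (by rw [hT])
  have hTne : T.Nonempty := by
    rw [← Finset.card_pos]
    omega
  obtain ⟨i0, hi0, hmin⟩ := Finset.exists_min_image T u hTne
  have hmain := main_ineq hred hT hi0 hmin hTs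
  obtain ⟨t, ht⟩ : ∃ t, ∑ i ∈ T, u i + t = 3 * e := ⟨3 * e - ∑ i ∈ T, u i, by omega⟩
  obtain ⟨hdeg, -⟩ := deg_le hred hT hi0 ht
  have htZ : ∑ i ∈ T, (u i : ℤ) + t = 3 * e := by exact_mod_cast ht
  have hsum : ∑ i ∈ T, (u i : ℤ) + ∑ j ∈ Tᶜ, (u j : ℤ) = 3 * e + κ := by
    rw [Finset.sum_add_sum_compl]
    unfold kk at hκ
    linarith
  have hsq : ∑ i ∈ T, (u i : ℤ) ^ 2 + ∑ j ∈ Tᶜ, (u j : ℤ) ^ 2 = (e : ℤ) ^ 2 + k := by
    rw [Finset.sum_add_sum_compl]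
    unfold ip at hk
    have : ∑ j, (u j : ℤ) ^ 2 = ∑ j, (u j : ℤ) * u j := Finset.sum_congr rfl fun j _ => sq _
    rw [this, pow_two]
    linarith
  have hmain' : 2 * (u i0 : ℤ) * t ≤ ∑ j ∈ Tᶜ, (u j : ℤ) ^ 2 - k := by
    have e1 : (3 * (e : ℤ) - ∑ i ∈ T, (u i : ℤ)) = t := by linarith
    rw [e1] at hmain
    linarith
  have hu1 : (u j1 : ℤ) ^ 2 ≤ ∑ j ∈ Tᶜ, (u j : ℤ) ^ 2 :=
    Finset.single_le_sum (f := fun j => (u j : ℤ) ^ 2) (s := Tᶜ)
      (fun j _ => sq_nonneg _) (Finset.mem_compl.2 hj1T)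
  have hj1Z : (4 : ℤ) ≤ u j1 := by exact_mod_cast hj1
  have hdegZ : (e : ℤ) ≤ 3 * ((u i0 : ℤ) + t) := by exact_mod_cast hdeg
  -- `t` is positive
  have ht1 : 1 ≤ t := by
    by_contra hcon
    have ht0 : t = 0 := by omega
    subst ht0
    obtain ⟨m, hm1, hm2⟩ := all_eq hred hT (by omega)
    have h3 : ∑ i ∈ T, (u i : ℤ) ^ 2 = (e : ℤ) ^ 2 := by
      have h4 : ∀ i ∈ T, (u i : ℤ) ^ 2 = (m : ℤ) ^ 2 := fun i hi => by rw [hm2 i hi]
      rw [Finset.sum_congr rfl h4, Finset.sum_const, hT, hm1]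
      push_cast
      ring
    nlinarith
  rcases Nat.eq_zero_or_pos (u i0) with h0 | h0
  · -- a multiplicity zero in `T`
    rw [h0] at hdegZ
    have hcl : ∃ j0 : Fin (r + 4), ∀ j, j ≠ j0 → u j ≠ 0 → 4 ≤ u j := by
      obtain ⟨G, g1, g2, g3⟩ := hI.ex
      rcases CL.neg_cl hP g1 g2 g3 (by rw [hk]; linarith) hI.ne with h | ⟨-, j0, -, h⟩
      · exact ⟨j1, fun j _ hj => h j hj⟩
      · exact ⟨j0, h⟩
    obtain ⟨j0, hj0⟩ := hcl
    have hterm : ∀ j : Fin (r + 4), 0 ≤ (u j : ℤ) ^ 2 - 2 * u j + if j = j0 then 1 else 0 := by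
      intro j
      by_cases hj : j = j0
      · rw [if_pos hj]
        nlinarith [sq_nonneg ((u j : ℤ) - 1)]
      · rw [if_neg hj]
        by_cases hj' : u j = 0
        · rw [hj']
          norm_num
        · have h1 : (4 : ℤ) ≤ u j := by exact_mod_cast hj0 j hj hj'
          nlinarith
    have h1 := Finset.single_le_sum (f := fun j => (u j : ℤ) ^ 2 - 2 * u j + if j = j0 then 1 else 0)
      (s := Tᶜ) (fun j _ => hterm j) (Finset.mem_compl.2 hj1T)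
    have h2 : ∑ j ∈ Tᶜ, ((u j : ℤ) ^ 2 - 2 * u j + if j = j0 then 1 else 0) ≤
        ∑ j ∈ Tᶜ, (u j : ℤ) ^ 2 - 2 * ∑ j ∈ Tᶜ, (u j : ℤ) + 1 := by
      rw [Finset.sum_add_distrib, Finset.sum_sub_distrib, ← Finset.mul_sum]
      have h3 : ∑ j ∈ Tᶜ, (if j = j0 then (1 : ℤ) else 0) ≤ 1 := by
        rw [Finset.sum_ite_eq']
        split_ifs <;> norm_num
      linarith
    have h3 : (0 : ℤ) ≤ if j1 = j0 then 1 else 0 := by split_ifs <;> norm_num
    push_cast at hdegZ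
    nlinarith
  · exact deg_num (m := u i0) (t := t) (by exact_mod_cast h0) (by exact_mod_cast ht1) hmain' hdegZ

theorem sum_ic_real {s : ℕ} {i : Fin 3 → Fin s} (hi : Function.Injective i) (x : Fin s → ℝ) :
    ∑ j, x j * (ic i j : ℝ) = x (i 0) + x (i 1) + x (i 2) := by
  classical
  have h1 : ∀ j, x j * (ic i j : ℝ) = (if j = i 0 then x j else 0) +
      (if j = i 1 then x j else 0) + (if j = i 2 then x j else 0) := by
    intro j
    unfold ic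
    by_cases c0 : j = i 0
    · subst c0
      rw [if_pos (Or.inl rfl), if_pos rfl, if_neg (ne10 hi).symm, if_neg (ne20 hi).symm]
      push_cast
      ring
    by_cases c1 : j = i 1
    · subst c1
      rw [if_pos (Or.inr (Or.inl rfl)), if_neg (ne10 hi), if_pos rfl, if_neg (ne21 hi).symm]
      push_cast
      ring
    by_cases c2 : j = i 2
    · subst c2
      rw [if_pos (Or.inr (Or.inr rfl)), if_neg (ne20 hi), if_neg (ne21 hi), if_pos rfl]
      push_cast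
      ring
    · rw [if_neg (by tauto), if_neg c0, if_neg c1, if_neg c2]
      push_cast
      ring
  rw [Finset.sum_congr rfl fun j _ => h1 j, Finset.sum_add_distrib, Finset.sum_add_distrib,
    Finset.sum_ite_eq' Finset.univ (i 0), Finset.sum_ite_eq' Finset.univ (i 1),
    Finset.sum_ite_eq' Finset.univ (i 2), if_pos (Finset.mem_univ _), if_pos (Finset.mem_univ _),
    if_pos (Finset.mem_univ _)]

end Pool.Agent.K4H28.TC
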