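import Mathlib

set_option autoImplicit false

/-!
# Two sums of squares of coefficients
-/

namespace Pool.Agent.K4H28.TC

/-- The sum of the squares of the coefficients `x j < x i` with `j ∉ T`. -/
noncomputable def below {s : ℕ} (T : Finset (Fin s)) (x : Fin s → ℝ) (i : Fin s) : ℝ :=
  ∑ j, if j ∉ T ∧ x j < x i then x j ^ 2 else 0

/-- The sum of the squares of the coefficients `x j ≥ x i` with `j ∉ T`. -/
noncomputable def above {s : ℕ} (T : Finset (Fin s)) (x : Fin s → ℝ) (i : Fin s) : ℝ :=
  ∑ j, if j ∉ T ∧ x i ≤ x j then x j ^ 2 else 0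

end Pool.Agent.K4H28.TC
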