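import Pool.Agent.K4H28.TC.Core
import Pool.Agent.K4H28.TC.Defs

set_option autoImplicit false

/-!
# Nef classes and the coefficients after the ninth
-/

namespace Pool.Agent.K4H28.TC

open MvPolynomial Pool.Agent.W609 Pool.Agent.W609.CR Pool.Agent.TH167 Pool.Agent.TH167.SH
open Pool.Agent.R355.NegOrb Pool.Agent.R355.CanDeg

theorem below_nonneg {s : ℕ} (T : Finset (Fin s)) (x : Fin s → ℝ) (i : Fin s) :
    0 ≤ below T x i := by
  unfold below
  refine Finset.sum_nonneg fun j _ => ?_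
  split_ifs
  · exact sq_nonneg _
  · exact le_rfl

theorem num_one {v y q k : ℝ} (h8 : 8 * k ≤ v ^ 2) (h : (v - y) ^ 2 + q < k)
    (hy : y ^ 2 ≤ 7 * q) : False := by
  have h5 := sq_nonneg (7 * v - 8 * y)
  nlinarith

theorem num_two {v y y0 s : ℝ} (hv : 4 ≤ v) (h : (v - y) ^ 2 + (1 - y0) ^ 2 + s < 1)
    (hs : y0 ^ 2 ≤ 7 * s) (hy : y ^ 2 ≤ 4 * (s + y0 ^ 2)) : False := by
  obtain ⟨a, ha⟩ : ∃ a, a = v - y := ⟨_, rfl⟩
  rw [← ha] at h
  have hs0 : 0 ≤ s := by nlinarith [sq_nonneg y0]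
  have ha1 : a < 1 := by
    by_contra hcon
    push Not at hcon
    nlinarith [sq_nonneg (1 - y0)]
  have hy4 : (4 - a) ^ 2 ≤ y ^ 2 := pow_le_pow_left₀ (by linarith) (by linarith) 2
  have h1 := sq_nonneg (a - 4 / 9)
  have h2 := sq_nonneg (y0 - 7 / 4)
  nlinarith

theorem num_three {v ρ W y0 s e : ℝ} (hv : 4 ≤ v) (hρ : v ≤ ρ) (hW0 : 0 ≤ W)
    (h : W ^ 2 + (1 - y0) ^ 2 + s < 1) (hs : y0 ^ 2 ≤ 7 * s) (he : 2 * e ≤ 6 + 3 * ρ ^ 2)
    (hy : 2 * (v - W) * (ρ - W) ^ 2 ≤ e * (s + y0 ^ 2)) : False := by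
  have hs0 : 0 ≤ s := by nlinarith [sq_nonneg y0]
  have hW1 : W < 1 := by
    by_contra hcon
    push Not at hcon
    nlinarith [sq_nonneg (1 - y0)]
  have h0 : 0 ≤ s + y0 ^ 2 := by
    have := sq_nonneg y0
    linarith
  have h1 : e * (s + y0 ^ 2) ≤ (3 / 2 * (ρ ^ 2 + 2)) * (s + y0 ^ 2) :=
    mul_le_mul_of_nonneg_right (by linarith) h0
  have h2 : (4 - W) ^ 2 * (ρ ^ 2 + 2) ≤ 18 * (ρ - W) ^ 2 := by
    obtain ⟨δ, rfl⟩ : ∃ δ, ρ = 4 + δ := ⟨ρ - 4, by ring⟩
    have hδ : 0 ≤ δ := by linarith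
    have e1 : 18 * (4 + δ - W) ^ 2 - (4 - W) ^ 2 * ((4 + δ) ^ 2 + 2) =
        δ * ((4 - W) * (4 + 8 * W)) + δ ^ 2 * (18 - (4 - W) ^ 2) := by ring
    have k1 : 0 ≤ δ * ((4 - W) * (4 + 8 * W)) :=
      mul_nonneg hδ (mul_nonneg (by linarith) (by linarith))
    have k2 : 0 ≤ δ ^ 2 * (18 - (4 - W) ^ 2) := mul_nonneg (sq_nonneg δ) (by nlinarith)
    linarith
  have h3 : (4 - W) * ((4 - W) ^ 2 * (ρ ^ 2 + 2)) ≤ (v - W) * (18 * (ρ - W) ^ 2) :=
    mul_le_mul (by linarith) h2 (by positivity) (by linarith)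
  have h4 : (4 - W) ^ 3 ≤ 27 / 2 * (s + y0 ^ 2) := by
    have hp : 0 < ρ ^ 2 + 2 := by positivity
    refine le_of_mul_le_mul_right ?_ hp
    have e1 : (4 - W) ^ 3 * (ρ ^ 2 + 2) = (4 - W) * ((4 - W) ^ 2 * (ρ ^ 2 + 2)) := by ring
    rw [e1]
    linarith
  have h5 : W ^ 3 ≤ W ^ 2 := by
    have e1 : W ^ 3 = W ^ 2 * W := by ring
    rw [e1]
    have := mul_le_mul_of_nonneg_left hW1.le (sq_nonneg W)
    linarith
  have h6 := sq_nonneg (W - 12 / 19)
  have h7 := sq_nonneg (y0 - 7 / 4)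
  nlinarith

/-- The general inequality. -/
theorem core {r : ℕ} {P : Fin (r + 4) → Fin 2 → ℂ}
    (hP : AlgebraicIndependent ℚ (fun ij : Fin (r + 4) × Fin 2 => P ij.1 ij.2))
    {x : Fin (r + 4) → ℝ} {c : ℝ} (hc : 0 ≤ c) (hx0 : ∀ i, 0 ≤ x i)
    {T : Finset (Fin (r + 4))} (hT : T.card ≤ 9) (hD0 : 0 ≤ c ^ 2 - ∑ i, x i ^ 2)
    {e : ℕ} {u : Fin (r + 4) → ℕ}
    (hD : ∀ i, i ∉ T → x i ^ 2 ≤ 7 * (c ^ 2 - ∑ i, x i ^ 2) ∨
      x i ^ 2 ≤ 4 * (c ^ 2 - ∑ i, x i ^ 2 + below T x i) ∨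
      (T.card = 9 ∧ Reduced e u ∧
        2 * x i * above T x i ≤ c * (c ^ 2 - ∑ i, x i ^ 2 + below T x i)))
    (hI : Irr P e u) : ∑ i, x i * (u i : ℝ) ≤ c * e := by
  classical
  by_contra hcon
  push Not at hcon
  obtain ⟨hc0, hneg⟩ := neg_of hc hD0 hcon
  obtain ⟨k, hk0, hk, hkR⟩ := ip_neg hneg
  obtain ⟨Q, hQ⟩ : ∃ Q, Q = c ^ 2 - ∑ i, x i ^ 2 := ⟨_, rfl⟩
  rw [← hQ] at hD0 hD
  obtain ⟨t, ht0, htc, hs⟩ := sphere hc0 (Irr.pos hI) hcon
  rw [← hkR, ← hQ] at hs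
  have heR : (0 : ℝ) < e := by exact_mod_cast Irr.pos hI
  have hk1 : (1 : ℝ) ≤ k := by exact_mod_cast hk0
  -- the index
  obtain ⟨A, hA⟩ : ∃ A : Finset (Fin (r + 4)), A = Finset.univ.filter fun j => j ∉ T ∧ 4 ≤ u j :=
    ⟨_, rfl⟩
  have hAm : ∀ j, j ∈ A ↔ j ∉ T ∧ 4 ≤ u j := fun j => by
    rw [hA, Finset.mem_filter]
    simp
  have hAne : A.Nonempty := by
    obtain ⟨j, h1, h2⟩ := exists_out hP hI (by rw [hk]; linarith) hT
    exact ⟨j, (hAm j).2 ⟨h1, h2⟩⟩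
  obtain ⟨i, hiA, hmin⟩ := Finset.exists_min_image A x hAne
  obtain ⟨hiT, hi4⟩ := (hAm i).1 hiA
  have h8 := eight hP hI hk hk0 (j := i) (by omega)
  have h9 := xuk hP hI hk (j := i) (by omega)
  obtain ⟨v, hv⟩ : ∃ v : ℝ, v = u i := ⟨_, rfl⟩
  have hv4 : 4 ≤ v := by rw [hv]; exact_mod_cast hi4
  have h8R : 8 * (k : ℝ) ≤ v ^ 2 := by rw [hv]; exact_mod_cast h8
  have h9R : (k : ℝ) ≤ v := by rw [hv]; exact_mod_cast h9
  -- the part of the sum over `A`
  obtain ⟨M, hM⟩ : ∃ M : ℝ, M = ∑ j ∈ A, ((u j : ℝ) - t * x j) ^ 2 := ⟨_, rfl⟩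
  have hM0 : 0 ≤ M := by rw [hM]; exact Finset.sum_nonneg fun i _ => sq_nonneg _
  obtain ⟨W, hW⟩ : ∃ W, W = √M := ⟨_, rfl⟩
  have hW0 : 0 ≤ W := by rw [hW]; exact Real.sqrt_nonneg _
  have hW2 : W ^ 2 = M := by rw [hW]; exact Real.sq_sqrt hM0
  have hiM : (v - t * x i) ^ 2 ≤ M := by
    rw [hM, hv]
    exact Finset.single_le_sum (f := fun j => ((u j : ℝ) - t * x j) ^ 2)
      (fun _ _ => sq_nonneg _) hiA
  have htQ : 0 ≤ t ^ 2 * Q := mul_nonneg (sq_nonneg t) hD0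
  have hy0 : 0 ≤ t * x i := mul_nonneg ht0.le (hx0 i)
  have hvW : v - W ≤ t * x i := by
    have h3 : (v - t * x i) ^ 2 ≤ W ^ 2 := by rw [hW2]; exact hiM
    have h4 := le_of_sq_le_sq h3 hW0
    linarith
  -- the radius
  obtain ⟨σ, hσ⟩ : ∃ σ : ℝ, σ = ∑ j ∈ A, (u j : ℝ) ^ 2 := ⟨_, rfl⟩
  have hσ0 : 0 ≤ σ := by rw [hσ]; exact Finset.sum_nonneg fun i _ => sq_nonneg _
  obtain ⟨ρ, hρ⟩ : ∃ ρ, ρ = √σ := ⟨_, rfl⟩
  have hρ0 : 0 ≤ ρ := by rw [hρ]; exact Real.sqrt_nonneg _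
  have hρ2 : ρ ^ 2 = σ := by rw [hρ]; exact Real.sq_sqrt hσ0
  have hvρ : v ≤ ρ := by
    have h1 : v ^ 2 ≤ σ := by
      rw [hσ, hv]
      exact Finset.single_le_sum (f := fun j => (u j : ℝ) ^ 2) (fun j _ => sq_nonneg _) hiA
    rw [← hρ2] at h1
    exact le_of_sq_le_sq h1 hρ0
  obtain ⟨X, hX⟩ : ∃ X, X = ∑ j ∈ A, x j ^ 2 := ⟨_, rfl⟩
  have hX0 : 0 ≤ X := by rw [hX]; exact Finset.sum_nonneg fun i _ => sq_nonneg _
  obtain ⟨a, ha⟩ : ∃ a, a = √X := ⟨_, rfl⟩
  have ha0 : 0 ≤ a := by rw [ha]; exact Real.sqrt_nonneg _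
  have ha2 : a ^ 2 = X := by rw [ha]; exact Real.sq_sqrt hX0
  have hρW : ρ - W ≤ t * a := by
    have h3 : (ρ - t * a) ^ 2 ≤ W ^ 2 := by
      rw [hW2]
      have h4 : M = σ - 2 * t * ∑ i ∈ A, x i * (u i : ℝ) + t ^ 2 * X := by
        have e1 : ∀ i, ((u i : ℝ) - t * x i) ^ 2 =
            (u i : ℝ) ^ 2 - 2 * t * (x i * u i) + t ^ 2 * x i ^ 2 := fun i => by ring
        rw [hM]
        simp only [e1]
        rw [Finset.sum_add_distrib, Finset.sum_sub_distrib, ← Finset.mul_sum, ← Finset.mul_sum,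
          hσ, hX]
      have h5 : ∑ i ∈ A, x i * (u i : ℝ) ≤ a * ρ := by
        have h6 : (∑ i ∈ A, x i * (u i : ℝ)) ^ 2 ≤ (a * ρ) ^ 2 := by
          rw [mul_pow, ha2, hρ2, hX, hσ]
          exact Finset.sum_mul_sq_le_sq_mul_sq _ _ _
        exact le_of_sq_le_sq h6 (by positivity)
      have h6 : t * ∑ i ∈ A, x i * (u i : ℝ) ≤ t * (a * ρ) := mul_le_mul_of_nonneg_left h5 ht0.le
      rw [h4, ← hρ2, ← ha2]
      have e2 : (ρ - t * a) ^ 2 = ρ ^ 2 - 2 * (t * (a * ρ)) + t ^ 2 * a ^ 2 := by ring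
      rw [e2]
      linarith
    have h4 := le_of_sq_le_sq h3 hW0
    linarith
  have hMs : M ≤ ∑ i, ((u i : ℝ) - t * x i) ^ 2 := by
    rw [hM]
    exact Finset.sum_le_sum_of_subset_of_nonneg (Finset.subset_univ _) fun i _ _ => sq_nonneg _
  have hMk : M < k := by linarith
  have hWv : W ≤ v := by
    refine le_of_sq_le_sq ?_ (by linarith)
    have h1 : 1 * v ≤ v * v := mul_le_mul_of_nonneg_right (by linarith) (by linarith)
    rw [hW2, pow_two]
    linarith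
  -- the third alternative
  have hthree : ∀ j (B : ℝ), 0 ≤ x j → x j ≤ x i → j ∉ T →
      2 * x j * above T x j ≤ c * B → 2 * (t * x j) * (ρ - W) ^ 2 ≤ t ^ 2 * B * e := by
    intro j B hj0 hji hjT h1
    have h2 : X ≤ above T x j := by
      rw [hX]
      unfold above
      rw [← Finset.sum_filter]
      refine Finset.sum_le_sum_of_subset_of_nonneg (fun l hl => ?_) fun l _ _ => sq_nonneg _
      rw [Finset.mem_filter]
      exact ⟨Finset.mem_univ _, ((hAm l).1 hl).1, hji.trans (hmin l hl)⟩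
    have h3 : 2 * x j * X ≤ c * B := by
      have := mul_le_mul_of_nonneg_left h2 (by linarith : 0 ≤ 2 * x j)
      linarith
    have h4 := mul_le_mul_of_nonneg_left h3 (by positivity : 0 ≤ t ^ 3)
    have e1 : t ^ 3 * (c * B) = t ^ 2 * B * (t * c) := by ring
    rw [e1, htc] at h4
    refine le_trans ?_ h4
    have e2 : t ^ 3 * (2 * x j * X) = 2 * (t * x j) * (t * a) ^ 2 := by rw [← ha2]; ring
    rw [e2]
    exact mul_le_mul_of_nonneg_left (pow_le_pow_left₀ (by linarith) hρW 2) (by positivity)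
  -- the first alternative is impossible
  have hfirst : ¬ x i ^ 2 ≤ 7 * Q := by
    intro h1
    refine num_one (v := v) (y := t * x i) (q := t ^ 2 * Q) (k := k) h8R (by linarith) ?_
    have := mul_le_mul_of_nonneg_left h1 (sq_nonneg t)
    rw [mul_pow]
    linarith
  -- the squares of the smaller coefficients
  have hbelow : ∀ j, below T x j = ∑ l ∈ Finset.univ.filter (fun l => l ∉ T ∧ x l < x j), x l ^ 2 := by
    intro j
    unfold below
    rw [← Finset.sum_filter]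
  obtain ⟨J, hJ⟩ : ∃ J : Finset (Fin (r + 4)), J = Finset.univ.filter fun l => l ∉ T ∧ x l < x i :=
    ⟨_, rfl⟩
  have hJm : ∀ j, j ∈ J ↔ j ∉ T ∧ x j < x i := fun j => by
    rw [hJ, Finset.mem_filter]
    simp
  have hAJ : Disjoint A J := by
    rw [Finset.disjoint_left]
    intro j hj hj'
    exact absurd (hmin j hj) (not_le.2 ((hJm j).1 hj').2)
  have hsplit : M + ∑ j ∈ J, ((u j : ℝ) - t * x j) ^ 2 ≤ ∑ i, ((u i : ℝ) - t * x i) ^ 2 := by
    rw [hM, ← Finset.sum_union hAJ]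
    exact Finset.sum_le_sum_of_subset_of_nonneg (Finset.subset_univ _) fun i _ _ => sq_nonneg _
  have hVi : below T x i = ∑ j ∈ J, x j ^ 2 := by rw [hbelow, hJ]
  obtain ⟨G, g1, g2, g3⟩ := hI.ex
  have hcl := CL.neg_cl hP g1 g2 g3 (by rw [hk]; linarith) hI.ne
  by_cases hsmall : ∀ j, j ∉ T → u j ≠ 0 → 4 ≤ u j
  · -- all nonzero multiplicities outside of `T` are at least four
    have hJu : ∑ j ∈ J, ((u j : ℝ) - t * x j) ^ 2 = t ^ 2 * below T x i := by
      rw [hVi, Finset.mul_sum]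
      refine Finset.sum_congr rfl fun j hj => ?_
      have h1 := (hJm j).1 hj
      have h2 : u j = 0 := by
        by_contra h0
        exact absurd (hmin j ((hAm j).2 ⟨h1.1, hsmall j h1.1 h0⟩)) (not_le.2 h1.2)
      rw [h2, Nat.cast_zero]
      ring
    have hlt : M + t ^ 2 * (Q + below T x i) < k := by
      rw [hJu] at hsplit
      linarith
    rcases hD i hiT with h1 | h1 | ⟨h9', hred, h1⟩
    · exact hfirst h1
    · refine num_one (v := v) (y := t * x i) (q := t ^ 2 * (Q + below T x i)) (k := k)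
        h8R (by linarith) ?_
      have h2 := mul_le_mul_of_nonneg_left h1 (sq_nonneg t)
      have h3 : 0 ≤ t ^ 2 * (Q + below T x i) :=
        mul_nonneg (sq_nonneg t) (add_nonneg hD0 (below_nonneg T x i))
      rw [mul_pow]
      linarith
    · have hdeg := deg_std hP hI hred hk hk0 h9'
      have hσT : ∑ j ∈ Tᶜ, (u j : ℝ) ^ 2 = σ := by
        rw [hσ]
        symm
        refine Finset.sum_subset (fun j hj => Finset.mem_compl.2 ((hAm j).1 hj).1) fun j hj hj' => ?_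
        have h2 : u j = 0 := by
          by_contra h0
          exact hj' ((hAm j).2 ⟨Finset.mem_compl.1 hj, hsmall j (Finset.mem_compl.1 hj) h0⟩)
        rw [h2]
        norm_num
      have hdegR : 2 * (e : ℝ) ≤ 6 + 3 * (ρ ^ 2 - k) := by
        rw [hρ2, ← hσT]
        exact_mod_cast hdeg
      have hlast := last2 (W := W) hv4 hvρ hW0 (by rw [hW2]; linarith) hk1 h9R h8R hdegR
      have h2 := hthree i _ (hx0 i) le_rfl hiT h1
      have h3 : 2 * (v - W) * (ρ - W) ^ 2 ≤ 2 * (t * x i) * (ρ - W) ^ 2 :=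
        mul_le_mul_of_nonneg_right (by linarith) (sq_nonneg _)
      have h5 : (k : ℝ) * e ≤ (W ^ 2 + t ^ 2 * (Q + below T x i)) * e := by linarith
      have h6 := le_of_mul_le_mul_right h5 heR
      rw [hW2] at h6
      linarith
  · -- a simple point
    push Not at hsmall
    obtain ⟨j0, hj0T, hj00, hj04⟩ := hsmall
    rcases hcl with hcl | ⟨hk1', j1, hj1, hcl⟩
    · have := hcl j0 hj00
      omega
    have hj01 : j0 = j1 := by
      by_contra h
      have := hcl j0 h hj00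
      omega
    subst hj01
    have hkone : (k : ℝ) = 1 := by
      have : k = 1 := by
        rw [hk] at hk1'
        linarith
      rw [this]
      norm_num
    rw [hkone] at hMk hs
    have hj0A : j0 ∉ A := fun h => by
      have := ((hAm j0).1 h).2
      omega
    obtain ⟨y0, hy0'⟩ : ∃ y0, y0 = t * x j0 := ⟨_, rfl⟩
    have hy00 : 0 ≤ y0 := by rw [hy0']; exact mul_nonneg ht0.le (hx0 j0)
    have hW1 : W < 1 := by
      by_contra hcon'
      push Not at hcon'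
      have h1 : 1 ≤ W ^ 2 := one_le_pow₀ hcon'
      linarith
    have hj0s : (1 - y0) ^ 2 + M ≤ ∑ i, ((u i : ℝ) - t * x i) ^ 2 := by
      have h1 : ∑ j ∈ insert j0 A, ((u j : ℝ) - t * x j) ^ 2 ≤ ∑ i, ((u i : ℝ) - t * x i) ^ 2 :=
        Finset.sum_le_sum_of_subset_of_nonneg (Finset.subset_univ _) fun i _ _ => sq_nonneg _
      rw [Finset.sum_insert hj0A, ← hM, hj1, Nat.cast_one, ← hy0'] at h1
      exact h1
    have hy02 : y0 < 2 := by
      by_contra hcon'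
      push Not at hcon'
      have h1 : 1 ≤ (y0 - 1) ^ 2 := one_le_pow₀ (by linarith)
      have e1 : (1 - y0) ^ 2 = (y0 - 1) ^ 2 := by ring
      rw [e1] at hj0s
      linarith
    have hlt0 : x j0 < x i := by
      by_contra hcon'
      push Not at hcon'
      have := mul_le_mul_of_nonneg_left hcon' ht0.le
      rw [← hy0'] at this
      linarith
    have hj0J : j0 ∈ J := (hJm j0).2 ⟨hj0T, hlt0⟩
    -- the rest
    obtain ⟨s, hsd⟩ : ∃ s, s = t ^ 2 * (Q + (below T x i - x j0 ^ 2)) := ⟨_, rfl⟩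
    have hVe : below T x i - x j0 ^ 2 = ∑ j ∈ J.erase j0, x j ^ 2 := by
      rw [hVi, ← Finset.add_sum_erase J (fun j => x j ^ 2) hj0J]
      ring
    have hJu : ∑ j ∈ J, ((u j : ℝ) - t * x j) ^ 2 =
        (1 - y0) ^ 2 + t ^ 2 * (below T x i - x j0 ^ 2) := by
      rw [← Finset.add_sum_erase J (fun j => ((u j : ℝ) - t * x j) ^ 2) hj0J, hVe, Finset.mul_sum,
        hj1, Nat.cast_one, ← hy0']
      congr 1
      refine Finset.sum_congr rfl fun j hj => ?_
      have h0 := Finset.mem_erase.1 hj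
      have h1 := (hJm j).1 h0.2
      have h2 : u j = 0 := by
        by_contra h3
        exact absurd (hmin j ((hAm j).2 ⟨h1.1, hcl j h0.1 h3⟩)) (not_le.2 h1.2)
      rw [h2, Nat.cast_zero]
      ring
    have hlt : M + (1 - y0) ^ 2 + s < 1 := by
      rw [hJu] at hsplit
      rw [hsd]
      linarith
    -- `below` for `j0`
    have hbj0 : below T x j0 ≤ below T x i - x j0 ^ 2 := by
      rw [hVe, hbelow]
      refine Finset.sum_le_sum_of_subset_of_nonneg (fun l hl => ?_) fun l _ _ => sq_nonneg _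
      rw [Finset.mem_filter] at hl
      rw [Finset.mem_erase]
      exact ⟨fun h => absurd hl.2.2 (by rw [h]; exact lt_irrefl _),
        (hJm l).2 ⟨hl.2.1, hl.2.2.trans hlt0⟩⟩
    have hbe0 : 0 ≤ below T x i - x j0 ^ 2 := (below_nonneg T x j0).trans hbj0
    have hsQ : t ^ 2 * Q ≤ s := by
      rw [hsd]
      exact mul_le_mul_of_nonneg_left (by linarith) (sq_nonneg t)
    have hsB : t ^ 2 * (Q + below T x j0) ≤ s := by
      rw [hsd]
      exact mul_le_mul_of_nonneg_left (by linarith) (sq_nonneg t)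
    have hs0 : 0 ≤ s := htQ.trans hsQ
    -- the degree
    have hdegR : T.card = 9 → Reduced e u → 2 * (e : ℝ) ≤ 6 + 3 * ρ ^ 2 := by
      intro h9' hred
      have hdeg := deg_std hP hI hred hk hk0 h9'
      have hσT : ∑ j ∈ Tᶜ, (u j : ℝ) ^ 2 = σ + 1 := by
        have h1 : ∑ j ∈ insert j0 A, (u j : ℝ) ^ 2 = ∑ j ∈ Tᶜ, (u j : ℝ) ^ 2 := by
          refine Finset.sum_subset (fun j hj => ?_) fun j hj hj' => ?_
          · rcases Finset.mem_insert.1 hj with rfl | hj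
            · exact Finset.mem_compl.2 hj0T
            · exact Finset.mem_compl.2 ((hAm j).1 hj).1
          · have h2 : u j = 0 := by
              by_contra h0
              refine hj' (Finset.mem_insert_of_mem ((hAm j).2 ⟨Finset.mem_compl.1 hj,
                hcl j (fun h => hj' ?_) h0⟩))
              rw [h]
              exact Finset.mem_insert_self _ _
            rw [h2]
            norm_num
        rw [← h1, Finset.sum_insert hj0A, ← hσ, hj1]
        norm_num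
        ring
      have h1 : 2 * (e : ℝ) ≤ 6 + 3 * (∑ j ∈ Tᶜ, (u j : ℝ) ^ 2 - k) := by exact_mod_cast hdeg
      rw [hσT, hkone, ← hρ2] at h1
      linarith
    -- `y0 ^ 2 ≤ 7 s`
    have h7s : y0 ^ 2 ≤ 7 * s := by
      rcases hD j0 hj0T with h1 | h1 | ⟨h9', hred, h1⟩
      · have h2 := mul_le_mul_of_nonneg_left h1 (sq_nonneg t)
        rw [hy0', mul_pow]
        linarith
      · have h2 := mul_le_mul_of_nonneg_left h1 (sq_nonneg t)
        rw [hy0', mul_pow]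
        linarith
      · have h2 := hthree j0 _ (hx0 j0) hlt0.le hj0T h1
        rw [← hy0'] at h2
        have h3 := hdegR h9' hred
        have h4 : t ^ 2 * (Q + below T x j0) * e ≤ s * e :=
          mul_le_mul_of_nonneg_right hsB heR.le
        have h5 : s * e ≤ s * (3 / 2 * (ρ ^ 2 + 2)) := mul_le_mul_of_nonneg_left (by linarith) hs0
        have hρ4 : 4 ≤ ρ := hv4.trans hvρ
        have h6 : 1 / 2 * (ρ ^ 2 + 2) ≤ (ρ - W) ^ 2 := by
          have h7 : (ρ - 1) ^ 2 ≤ (ρ - W) ^ 2 := pow_le_pow_left₀ (by linarith) (by linarith) 2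
          have h8'' : 0 ≤ ρ * (ρ - 4) := mul_nonneg hρ0 (by linarith)
          have e1 : (ρ - 1) ^ 2 = 1 / 2 * (ρ ^ 2 + 2) + 1 / 2 * (ρ * (ρ - 4)) := by ring
          rw [e1] at h7
          linarith
        have h7 : 2 * y0 * (1 / 2 * (ρ ^ 2 + 2)) ≤ 2 * y0 * (ρ - W) ^ 2 :=
          mul_le_mul_of_nonneg_left h6 (by linarith)
        have h8' : y0 * (ρ ^ 2 + 2) ≤ (3 / 2 * s) * (ρ ^ 2 + 2) := by linarith
        have h9'' := le_of_mul_le_mul_right h8' (by positivity : 0 < ρ ^ 2 + 2)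
        have h10 : y0 * y0 ≤ 2 * y0 := mul_le_mul_of_nonneg_right hy02.le hy00
        rw [pow_two]
        linarith
    rcases hD i hiT with h1 | h1 | ⟨h9', hred, h1⟩
    · exact hfirst h1
    · refine num_two (v := v) (y := t * x i) (y0 := y0) (s := s) hv4 (by linarith) h7s ?_
      have h2 := mul_le_mul_of_nonneg_left h1 (sq_nonneg t)
      rw [mul_pow, hsd, hy0']
      linarith
    · refine num_three (v := v) (ρ := ρ) (W := W) (y0 := y0) (s := s) (e := e) hv4 hvρ hW0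
        (by rw [hW2]; exact hlt) h7s (hdegR h9' hred) ?_
      have h2 := hthree i _ (hx0 i) le_rfl hiT h1
      have h3 : 2 * (v - W) * (ρ - W) ^ 2 ≤ 2 * (t * x i) * (ρ - W) ^ 2 :=
        mul_le_mul_of_nonneg_right (by linarith) (sq_nonneg _)
      have e1 : t ^ 2 * (Q + below T x i) * e = e * (s + y0 ^ 2) := by
        rw [hsd, hy0']
        ring
      rw [e1] at h2
      linarith

/-- Classes which are nonnegative on the `(-1)`-curves. -/
theorem coreA {r : ℕ} {P : Fin (r + 4) → Fin 2 → ℂ}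
    (hP : AlgebraicIndependent ℚ (fun ij : Fin (r + 4) × Fin 2 => P ij.1 ij.2))
    {x : Fin (r + 4) → ℝ} {c : ℝ} (hc : 0 ≤ c) (hx0 : ∀ i, 0 ≤ x i)
    {T : Finset (Fin (r + 4))} (hT : T.card ≤ 9) (hD0 : 0 ≤ c ^ 2 - ∑ i, x i ^ 2)
    (hD : ∀ i, i ∉ T → x i ^ 2 ≤ 7 * (c ^ 2 - ∑ i, x i ^ 2) ∨
      x i ^ 2 ≤ 4 * (c ^ 2 - ∑ i, x i ^ 2 + below T x i))
    {e : ℕ} {u : Fin (r + 4) → ℕ} (hI : Irr P e u) : ∑ i, x i * (u i : ℝ) ≤ c * e :=
  core hP hc hx0 hT hD0 (fun i hi => (hD i hi).imp id fun h => Or.inl h) hI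

/-- Standard classes. -/
theorem coreB {r : ℕ} {P : Fin (r + 4) → Fin 2 → ℂ}
    (hP : AlgebraicIndependent ℚ (fun ij : Fin (r + 4) × Fin 2 => P ij.1 ij.2))
    {x : Fin (r + 4) → ℝ} {c : ℝ} (hc : 0 ≤ c) (hx0 : ∀ i, 0 ≤ x i)
    (hstd : ∀ i j k, i ≠ j → i ≠ k → j ≠ k → x i + x j + x k ≤ c) {T : Finset (Fin (r + 4))}
    (hT : T.card = 9) (hD0 : 0 ≤ c ^ 2 - ∑ i, x i ^ 2)
    (hD : ∀ i, i ∉ T → x i ^ 2 ≤ 7 * (c ^ 2 - ∑ i, x i ^ 2) ∨
      x i ^ 2 ≤ 4 * (c ^ 2 - ∑ i, x i ^ 2 + below T x i) ∨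
      2 * x i * above T x i ≤ c * (c ^ 2 - ∑ i, x i ^ 2 + below T x i)) :
    ∀ (e : ℕ) (u : Fin (r + 4) → ℕ), Irr P e u → ∑ i, x i * (u i : ℝ) ≤ c * e := by
  intro e
  induction e using Nat.strong_induction_on with
  | _ e ih =>
    intro u hI
    by_cases hred : Reduced e u
    · exact core hP hc hx0 hT.le hD0 (fun i hi => (hD i hi).imp id fun h =>
        h.imp id fun h => ⟨hT, hred, h⟩) hI
    · have hred' := hred
      unfold Reduced at hred'
      push Not at hred'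
      obtain ⟨a, b, d, hab, had, hbd, hlt⟩ := hred'
      have hi : Function.Injective ![a, b, d] := inj_cons hab had hbd
      have p := hI.ps hP hi
      have hc1 := cd_cast p
      have hc2 := hc1
      unfold dl at hc1
      have e0 : u (![a, b, d] 0) = u a := rfl
      have e1 : u (![a, b, d] 1) = u b := rfl
      have e2 : u (![a, b, d] 2) = u d := rfl
      rw [e0, e1, e2] at hc1
      have hlt' : cd ![a, b, d] e u < e := by omega
      have h1 := ih _ hlt' _ (hI.step hP hi)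
      have h2 : ∀ j, ((wcr e ![a, b, d] u j : ℕ) : ℝ) =
          (u j : ℝ) + (dl ![a, b, d] e u : ℝ) * (ic ![a, b, d] j : ℝ) := by
        intro j
        have := wcr_cast hi p j
        have h3 : (((wcr e ![a, b, d] u j : ℕ) : ℤ) : ℝ) =
            (((u j : ℤ) + dl ![a, b, d] e u * ic ![a, b, d] j : ℤ) : ℝ) := by rw [this]
        push_cast at h3
        exact h3
      have h3 : ((cd ![a, b, d] e u : ℕ) : ℝ) = (e : ℝ) + (dl ![a, b, d] e u : ℝ) := by
        have h3 : (((cd ![a, b, d] e u : ℕ) : ℤ) : ℝ) =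
            (((e : ℤ) + dl ![a, b, d] e u : ℤ) : ℝ) := by rw [hc2]
        push_cast at h3
        exact h3
      have h4 : ∑ j, x j * ((wcr e ![a, b, d] u j : ℕ) : ℝ) =
          ∑ j, x j * (u j : ℝ) + (dl ![a, b, d] e u : ℝ) * (x a + x b + x d) := by
        have e3 : ∀ j, x j * ((wcr e ![a, b, d] u j : ℕ) : ℝ) = x j * (u j : ℝ) +
            (dl ![a, b, d] e u : ℝ) * (x j * (ic ![a, b, d] j : ℝ)) := by
          intro j
          rw [h2]
          ring
        rw [Finset.sum_congr rfl fun j _ => e3 j, Finset.sum_add_distrib, ← Finset.mul_sum,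
          sum_ic_real hi x]
        rfl
      rw [h4, h3] at h1
      have h5 : (dl ![a, b, d] e u : ℝ) ≤ 0 := by
        have h6 : dl ![a, b, d] e u ≤ 0 := by
          unfold dl
          rw [e0, e1, e2]
          omega
        exact_mod_cast h6
      have h6 := hstd a b d hab had hbd
      have h7 : (dl ![a, b, d] e u : ℝ) * (c - (x a + x b + x d)) ≤ 0 :=
        mul_nonpos_of_nonpos_of_nonneg h5 (by linarith)
      linarith

end Pool.Agent.K4H28.TC
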