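import Pool.Agent.R355.CanDeg2
import Pool.Agent.TH167.CL.NegG

set_option autoImplicit false

/-!
# Negative curves: the self-intersection and the multiplicities
-/

namespace Pool.Agent.K4H28.TC

open MvPolynomial Pool.Agent.W609 Pool.Agent.W609.CR Pool.Agent.TH167 Pool.Agent.TH167.SH
open Pool.Agent.R355.NegOrb Pool.Agent.R355.CanDeg

theorem ip_cast {s e : ℕ} (u : Fin s → ℕ) :
    ip e u e u = ((e * e : ℕ) : ℤ) - ((∑ j, u j * u j : ℕ) : ℤ) := by
  unfold ip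
  push_cast
  rfl

/-- Two bounds, one of which holds. -/
theorem alt {r : ℕ} {P : Fin (r + 4) → Fin 2 → ℂ}
    (hP : AlgebraicIndependent ℚ (fun ij : Fin (r + 4) × Fin 2 => P ij.1 ij.2)) {e : ℕ}
    {u : Fin (r + 4) → ℕ} (hI : Irr P e u) {k κ : ℤ} (hk : ip e u e u = -k) (hk0 : 0 < k)
    (hκ : kk e u = -κ) {j : Fin (r + 4)} (hj : 3 ≤ u j) :
    k + 2 ≤ u j ∨ 4 + k + κ ≤ 2 * (u j : ℤ) := by
  obtain ⟨G, g1, g2, g3⟩ := hI.ex
  have hje : u j ≤ e := van_le g1.ne_zero g2 (g3 j).1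
  have h := CL.neg_ineq (by omega) hP g1 g2 g3 (by rw [hk]; linarith) hj ∅ ∅
    (fun i hi => absurd hi (Finset.notMem_empty i)) (fun i hi => absurd hi (Finset.notMem_empty i))
  rw [Finset.card_empty, Finset.sum_empty] at h
  have h1 := ip_cast (e := e) u
  have h2 := kk_cast e u
  rw [hk] at h1
  rw [hκ] at h2
  rcases h with h | h
  · right
    have h3 : ((6 + 6 * 0 + ∑ i, u i * u i + ∑ i, u i : ℕ) : ℤ) ≤
        ((e * e + 3 * e + 2 + 2 * u j + 2 * 0 : ℕ) : ℤ) := by exact_mod_cast h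
    push_cast at h3 h1 h2
    linarith
  · left
    have h3 : ((6 + 6 * 0 + 0 + ∑ i, u i * u i : ℕ) : ℤ) ≤
        ((e * e + 4 + u j + 0 : ℕ) : ℤ) := by exact_mod_cast h
    push_cast at h3 h1
    linarith

/-- The inequality of Xu. -/
theorem xuk {r : ℕ} {P : Fin (r + 4) → Fin 2 → ℂ}
    (hP : AlgebraicIndependent ℚ (fun ij : Fin (r + 4) × Fin 2 => P ij.1 ij.2)) {e : ℕ}
    {u : Fin (r + 4) → ℕ} (hI : Irr P e u) {k : ℤ} (hk : ip e u e u = -k)
    {j : Fin (r + 4)} (hj : u j ≠ 0) : k ≤ u j := by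
  obtain ⟨G, g1, g2, g3⟩ := hI.ex
  have hx := xu hP g1 g2 g3 (k := j) (by omega)
  have hx' : ((∑ j, u j ^ 2 : ℕ) : ℤ) ≤ ((e ^ 2 + u j : ℕ) : ℤ) := by exact_mod_cast hx
  have e1 : ip e u e u = (e : ℤ) ^ 2 - ((∑ j, u j ^ 2 : ℕ) : ℤ) := by
    unfold ip
    push_cast
    rw [pow_two]
    congr 1
    exact Finset.sum_congr rfl fun i _ => by ring
  rw [e1] at hk
  push_cast at hx' hk
  linarith

/-- At least ten multiplicities are at least four. -/
theorem ten {r : ℕ} {P : Fin (r + 4) → Fin 2 → ℂ}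
    (hP : AlgebraicIndependent ℚ (fun ij : Fin (r + 4) × Fin 2 => P ij.1 ij.2)) {e : ℕ}
    {u : Fin (r + 4) → ℕ} (hI : Irr P e u) (hneg : ip e u e u < 0) :
    10 ≤ (Finset.univ.filter fun j => 3 < u j).card := by
  obtain ⟨G, g1, g2, g3⟩ := hI.ex
  by_contra hcon
  exact hI.ne (T3.neg9 (by omega) hP g1 g2 g3 hneg)

theorem exists_out {r : ℕ} {P : Fin (r + 4) → Fin 2 → ℂ}
    (hP : AlgebraicIndependent ℚ (fun ij : Fin (r + 4) × Fin 2 => P ij.1 ij.2)) {e : ℕ}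
    {u : Fin (r + 4) → ℕ} (hI : Irr P e u) (hneg : ip e u e u < 0) {T : Finset (Fin (r + 4))}
    (hT : T.card ≤ 9) : ∃ j, j ∉ T ∧ 4 ≤ u j := by
  by_contra hcon
  push Not at hcon
  have h1 := ten hP hI hneg
  have : (Finset.univ.filter fun j => 3 < u j).card ≤ T.card :=
    Finset.card_le_card fun j hj => by
      by_contra hjT
      have := hcon j hjT
      have := (Finset.mem_filter.1 hj).2
      omega
  omega

/-- Canonical degree three. -/
theorem k_three {r : ℕ} {P : Fin (r + 4) → Fin 2 → ℂ}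
    (hP : AlgebraicIndependent ℚ (fun ij : Fin (r + 4) × Fin 2 => P ij.1 ij.2)) {d : ℕ}
    {w : Fin (r + 4) → ℕ} (hI : Irr P d w) {k : ℤ} (hk : ip d w d w = -k) (hk0 : 0 < k)
    (hκ : kk d w = -3) : k ≤ 3 := by
  obtain ⟨-, e, u, -, hIu, -, -, hip, hkk, -, T, hT, -, -, h5, -⟩ := main hP hI hk hk0 hκ
  obtain ⟨j, hjT, hj⟩ := exists_out hP hIu (by rw [hip]; linarith) hT.le
  have h1 := Finset.single_le_sum (f := fun j => (u j : ℤ)) (s := Tᶜ)
    (fun j _ => Int.natCast_nonneg _) (Finset.mem_compl.2 hjT)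
  rcases alt hP hIu hip hk0 hkk (j := j) (by omega) with h2 | h2
  · linarith
  · linarith

/-- The self-intersection and the multiplicities. -/
theorem eight {r : ℕ} {P : Fin (r + 4) → Fin 2 → ℂ}
    (hP : AlgebraicIndependent ℚ (fun ij : Fin (r + 4) × Fin 2 => P ij.1 ij.2)) {e : ℕ}
    {u : Fin (r + 4) → ℕ} (hI : Irr P e u) {k : ℤ} (hk : ip e u e u = -k) (hk0 : 0 < k)
    {j : Fin (r + 4)} (hj : 3 ≤ u j) : 8 * k ≤ (u j : ℤ) ^ 2 := by
  obtain ⟨κ, hκ⟩ : ∃ κ, kk e u = -κ := ⟨-kk e u, (neg_neg _).symm⟩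
  obtain ⟨hκ3, -⟩ := main hP hI hk hk0 hκ
  have hx := xuk hP hI hk (j := j) (by omega)
  obtain ⟨v, hv⟩ : ∃ v : ℤ, v = u j := ⟨_, rfl⟩
  have hv3 : 3 ≤ v := by rw [hv]; exact_mod_cast hj
  rw [← hv] at hx ⊢
  rcases alt hP hI hk hk0 hκ hj with h2 | h2
  · rw [← hv] at h2
    nlinarith [sq_nonneg (v - 4)]
  · rw [← hv] at h2
    rcases le_or_gt 8 v with h8 | h8
    · nlinarith
    · have hk3 : κ = 3 → k ≤ 3 := fun h => by
        rw [h] at hκ
        exact k_three hP hI hk hk0 hκ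
      have hv' : v = 3 ∨ v = 4 ∨ v = 5 ∨ v = 6 ∨ v = 7 := by omega
      rcases hv' with h | h | h | h | h
      · omega
      · subst h
        norm_num
        omega
      · rw [h] at h2 ⊢
        norm_num
        omega
      · rw [h] at h2 ⊢
        norm_num
        by_contra hcon
        have : κ = 3 := by omega
        have := hk3 this
        omega
      · rw [h] at h2 hx ⊢
        norm_num
        by_contra hcon
        have : κ = 3 := by omega
        have := hk3 this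
        omega

end Pool.Agent.K4H28.TC
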