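import Pool.Agent.K4H28.TC.Core2
import Pool.Agent.TH167.SH.Conv

set_option autoImplicit false

/-!
# From irreducible curves to all forms
-/

namespace Pool.Agent.K4H28.TC

open MvPolynomial Pool.Agent.W609 Pool.Agent.W609.CR Pool.Agent.TH167 Pool.Agent.TH167.SH
open Pool.Agent.R355.NegOrb Pool.Agent.R355.CanDeg

theorem exists_ord {a : Fin 2 → ℂ} {F : MvPolynomial (Fin 3) ℂ} {e : ℕ} (hF0 : F ≠ 0)
    (hF : F.IsHomogeneous e) : ∃ u, Ord (aff a) u F := by
  classical
  refine ⟨Nat.findGreatest (fun m => Van (aff a) m F) e,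
    Nat.findGreatest_spec (m := 0) (P := fun m => Van (aff a) m F) (Nat.zero_le _)
      (van_zero _ _), fun h => ?_⟩
  have h1 := van_le hF0 hF h
  have h2 := Nat.le_findGreatest (P := fun m => Van (aff a) m F) h1 h
  omega

/-- It suffices to consider irreducible forms. -/
theorem form_of_irr {s : ℕ} {p : Fin s → Fin 2 → ℂ} {x : Fin s → ℝ} {c : ℝ}
    (hx0 : ∀ i, 0 ≤ x i)
    (hirr : ∀ (G : MvPolynomial (Fin 3) ℂ) (e : ℕ) (u : Fin s → ℕ), Irreducible G →
      G.IsHomogeneous e → (∀ j, Ord (aff (p j)) (u j) G) → ∑ i, x i * (u i : ℝ) ≤ c * e)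
    (F : MvPolynomial (Fin 3) ℂ) : F ≠ 0 → ∀ (e : ℕ) (m : Fin s → ℕ), F.IsHomogeneous e →
      (∀ i, Van (aff (p i)) (m i) F) → ∑ i, x i * (m i : ℝ) ≤ c * e := by
  classical
  refine WfDvdMonoid.induction_on_irreducible (motive := fun F => F ≠ 0 → ∀ (e : ℕ)
    (m : Fin s → ℕ), F.IsHomogeneous e →
    (∀ i, Van (aff (p i)) (m i) F) → ∑ i, x i * (m i : ℝ) ≤ c * e) F
    (fun h0 => absurd rfl h0) ?_ ?_
  · intro F hF hF0 e m hFe hm
    have he : e = 0 := by
      obtain ⟨g, hg⟩ := hF.exists_right_inv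
      have hg0 : g ≠ 0 := by
        rintro rfl
        rw [mul_zero] at hg
        exact zero_ne_one hg
      have h3 := MvPolynomial.totalDegree_mul_of_isDomain hF0 hg0
      rw [hg, hFe.totalDegree hF0, MvPolynomial.totalDegree_one] at h3
      omega
    have h3 : ∀ i, m i = 0 := fun i => by
      have := van_le hF0 hFe (hm i)
      omega
    rw [he]
    simp [h3]
  · intro F G hF0 hG ih hGF e m hFe hm
    have hGh := Pool.Agent.Chud.homog_of_dvd hFe hGF ⟨F, rfl⟩
    have hFh := Pool.Agent.Chud.homog_of_dvd hFe hGF ⟨G, mul_comm _ _⟩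
    have hdeg : e = G.totalDegree + F.totalDegree := by
      rw [← MvPolynomial.totalDegree_mul_of_isDomain hG.ne_zero hF0, hFe.totalDegree hGF]
    choose u hu using fun i => exists_ord (a := p i) hG.ne_zero hGh
    have h3 : ∑ i, x i * (u i : ℝ) ≤ c * G.totalDegree := hirr G _ u hG hGh hu
    have h4 := ih hF0 _ (fun i => m i - u i) hFh fun i => by
      rcases le_total (u i) (m i) with h5 | h5
      · refine van_of_mul (hu i) ?_
        rw [Nat.add_sub_cancel' h5]
        exact hm i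
      · rw [Nat.sub_eq_zero_of_le h5]
        exact van_zero _ _
    have h5 : ∑ i, x i * (m i : ℝ) ≤
        ∑ i, (x i * (u i : ℝ) + x i * ((m i - u i : ℕ) : ℝ)) := by
      refine Finset.sum_le_sum fun i _ => ?_
      rw [← mul_add]
      refine mul_le_mul_of_nonneg_left ?_ (hx0 i)
      have : m i ≤ u i + (m i - u i) := by omega
      exact_mod_cast this
    rw [Finset.sum_add_distrib] at h5
    rw [hdeg]
    push_cast
    linarith

/-- Three largest coefficients. -/
theorem exists_three {r : ℕ} (x : Fin (r + 4) → ℝ) : ∃ a b d : Fin (r + 4), a ≠ b ∧ a ≠ d ∧ b ≠ d ∧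
    x d ≤ x b ∧ x d ≤ x a ∧ ∀ j, j ≠ a → j ≠ b → x j ≤ x d := by
  classical
  obtain ⟨a, -, ha⟩ := Finset.exists_max_image (Finset.univ : Finset (Fin (r + 4))) x
    Finset.univ_nonempty
  have h1 : (Finset.univ.erase a : Finset (Fin (r + 4))).Nonempty := by
    rw [← Finset.card_pos, Finset.card_erase_of_mem (Finset.mem_univ _), Finset.card_univ,
      Fintype.card_fin]
    omega
  obtain ⟨b, hb, hb'⟩ := Finset.exists_max_image (Finset.univ.erase a) x h1
  have h2 : ((Finset.univ.erase a).erase b : Finset (Fin (r + 4))).Nonempty := by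
    rw [← Finset.card_pos, Finset.card_erase_of_mem hb,
      Finset.card_erase_of_mem (Finset.mem_univ _), Finset.card_univ, Fintype.card_fin]
    omega
  obtain ⟨d, hd, hd'⟩ := Finset.exists_max_image ((Finset.univ.erase a).erase b) x h2
  have hba : b ≠ a := (Finset.mem_erase.1 hb).1
  have hdb : d ≠ b := (Finset.mem_erase.1 hd).1
  have hda : d ≠ a := (Finset.mem_erase.1 (Finset.mem_erase.1 hd).2).1
  refine ⟨a, b, d, hba.symm, hda.symm, hdb.symm, hb' d (Finset.mem_erase.1 hd).2,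
    ha d (Finset.mem_univ _), fun j hja hjb => hd' j ?_⟩
  exact Finset.mem_erase.2 ⟨hjb, Finset.mem_erase.2 ⟨hja, Finset.mem_univ _⟩⟩

/-- A standard class is nonnegative on the curves with `K C ≤ 0`. -/
theorem std_nonneg {r : ℕ} {x : Fin (r + 4) → ℝ} {c : ℝ} (hx0 : ∀ i, 0 ≤ x i)
    (hstd : ∀ i j k, i ≠ j → i ≠ k → j ≠ k → x i + x j + x k ≤ c) {e : ℕ} {u : Fin (r + 4) → ℕ}
    (hue : ∀ i, u i ≤ e) (hk : ∑ i, u i ≤ 3 * e) : ∑ i, x i * (u i : ℝ) ≤ c * e := by
  classical
  obtain ⟨a, b, d, hab, had, hbd, h1, h2, h3⟩ := exists_three x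
  have h4 : ∀ i, x i * (u i : ℝ) ≤ x d * u i + (if i = a then (x a - x d) * e else 0) +
      (if i = b then (x b - x d) * e else 0) := by
    intro i
    have hui : (u i : ℝ) ≤ e := by exact_mod_cast hue i
    by_cases hia : i = a
    · subst hia
      rw [if_pos rfl, if_neg hab]
      have := mul_le_mul_of_nonneg_left hui (sub_nonneg.2 h2)
      linarith
    · rw [if_neg hia]
      by_cases hib : i = b
      · subst hib
        rw [if_pos rfl]
        have := mul_le_mul_of_nonneg_left hui (sub_nonneg.2 h1)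
        linarith
      · rw [if_neg hib]
        have := mul_le_mul_of_nonneg_right (h3 i hia hib) (Nat.cast_nonneg (α := ℝ) (u i))
        linarith
  have h5 := Finset.sum_le_sum fun i (_ : i ∈ (Finset.univ : Finset (Fin (r + 4)))) => h4 i
  rw [Finset.sum_add_distrib, Finset.sum_add_distrib, Finset.sum_ite_eq' Finset.univ a,
    Finset.sum_ite_eq' Finset.univ b, if_pos (Finset.mem_univ _), if_pos (Finset.mem_univ _),
    ← Finset.mul_sum] at h5
  have h6 : ∑ i, (u i : ℝ) ≤ 3 * e := by exact_mod_cast hk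
  have h7 : x d * ∑ i, (u i : ℝ) ≤ x d * (3 * e) := mul_le_mul_of_nonneg_left h6 (hx0 d)
  have h8 : (x a + x b + x d) * e ≤ c * e :=
    mul_le_mul_of_nonneg_right (hstd a b d hab had hbd) (Nat.cast_nonneg _)
  linarith

theorem std_c {r : ℕ} {x : Fin (r + 4) → ℝ} {c : ℝ} (hx0 : ∀ i, 0 ≤ x i)
    (hstd : ∀ i j k, i ≠ j → i ≠ k → j ≠ k → x i + x j + x k ≤ c) : 0 ≤ c := by
  obtain ⟨a, b, d, hab, had, hbd, -⟩ := exists_three x
  have := hstd a b d hab had hbd
  have h2 := hx0 a
  have h3 := hx0 b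
  have h4 := hx0 d
  linarith

end Pool.Agent.K4H28.TC
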